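import Pool.Agent.V11199.DC.Core

/-!
# Divisibility of the sum of identical dice: `Pr[n ∣ S] ≥ 2 ^ (1 - n)`

Part 1 is the counting form (the faces `F` are a finite nonempty type, `f : F → ℤ` is the
labelling, an outcome of the `n` tosses is `x : Fin n → F`, all outcomes being equally likely).
Part 2 is the same statement for `n` independent uniform random faces on any probability space.
-/

namespace Pool.Agent.Results.MP_652ce8_co.DiceBound

open MeasureTheory ProbabilityTheory

universe u v

theorem result :
    (∀ (n : ℕ), 1 ≤ n → ∀ (F : Type u) [Fintype F] [Nonempty F] (f : F → ℤ),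
      (1 : ℝ) / 2 ^ (n - 1) ≤
        ((Finset.univ.filter (fun x : Fin n → F => (n : ℤ) ∣ ∑ i, f (x i))).card : ℝ)
          / (Fintype.card F : ℝ) ^ n) ∧
    (∀ (n : ℕ), 1 ≤ n → ∀ (Ω : Type v) [MeasurableSpace Ω] (μ : Measure Ω)
      [IsProbabilityMeasure μ] (F : Type u) [Fintype F] [Nonempty F] [MeasurableSpace F]
      [MeasurableSingletonClass F] (Y : Fin n → Ω → F),
      (∀ i, Measurable (Y i)) →
      (∀ i a, μ (Y i ⁻¹' {a}) = (Fintype.card F : ENNReal)⁻¹) →
      iIndepFun Y μ →
      ∀ f : F → ℤ, ((2 : ENNReal) ^ (n - 1))⁻¹ ≤ μ {ω | (n : ℤ) ∣ ∑ i, f (Y i ω)}) := by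
  constructor
  · intro n _ F _ _ f
    have h := Pool.Agent.V11199.DC.P_all n F f
    have hF : (0 : ℝ) < (Fintype.card F : ℝ) ^ n := by
      have : 0 < Fintype.card F := Fintype.card_pos
      positivity
    rw [div_le_div_iff₀ (by positivity) hF, one_mul]
    have h' : ((Fintype.card F : ℝ)) ^ n ≤ 2 ^ (n - 1) *
        ((Pool.Agent.V11199.DC.good n f).card : ℝ) := by
      exact_mod_cast h
    rw [mul_comm]
    exact h'
  · intro n _ Ω _ μ _ F _ _ _ _ Y hY hunif hind f
    classical
    have h := Pool.Agent.V11199.DC.P_all n F f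
    have hset : {ω | (n : ℤ) ∣ ∑ i, f (Y i ω)} =
        ⋃ x ∈ Pool.Agent.V11199.DC.good n f, ⋂ i ∈ (Finset.univ : Finset (Fin n)),
          Y i ⁻¹' {x i} := by
      ext ω
      simp only [Set.mem_iUnion, Set.mem_iInter, Set.mem_preimage, Set.mem_singleton_iff,
        Finset.mem_univ, true_implies, exists_prop]
      constructor
      · intro hω
        exact ⟨fun i => Y i ω, Pool.Agent.V11199.DC.mem_good.mpr hω, fun i => rfl⟩
      · rintro ⟨x, hx, hxω⟩
        have : (fun i => Y i ω) = x := funext hxω
        show (n : ℤ) ∣ ∑ i, f (Y i ω)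
        simp only [hxω]
        exact Pool.Agent.V11199.DC.mem_good.mp hx
    rw [hset, measure_biUnion_finset]
    · have hx : ∀ x : Fin n → F, μ (⋂ i ∈ (Finset.univ : Finset (Fin n)), Y i ⁻¹' {x i}) =
          ((Fintype.card F : ENNReal)⁻¹) ^ n := by
        intro x
        rw [hind.measure_inter_preimage_eq_mul Finset.univ
          (fun i _ => measurableSet_singleton (x i))]
        simp [hunif]
      rw [Finset.sum_congr rfl (fun x _ => hx x), Finset.sum_const, nsmul_eq_mul]
      have hFpos : (0 : ℝ) < (Fintype.card F : ℝ) := by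
        have : 0 < Fintype.card F := Fintype.card_pos
        positivity
      have hF0 : (Fintype.card F : ENNReal) ≠ 0 := by
        have : 0 < Fintype.card F := Fintype.card_pos
        positivity
      have hFt : (Fintype.card F : ENNReal) ≠ ⊤ := ENNReal.natCast_ne_top _
      have h' : ((Fintype.card F : ENNReal)) ^ n ≤ 2 ^ (n - 1) *
          ((Pool.Agent.V11199.DC.good n f).card : ENNReal) := by
        exact_mod_cast h
      rw [← ENNReal.inv_pow, ← div_eq_mul_inv]
      rw [ENNReal.le_div_iff_mul_le (Or.inl (by positivity))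
        (Or.inl (ENNReal.pow_ne_top hFt))]
      rw [mul_comm, ← div_eq_mul_inv]
      rw [ENNReal.div_le_iff_le_mul (Or.inl (by positivity))
        (Or.inl (ENNReal.pow_ne_top (by simp)))]
      rw [mul_comm]
      exact h'
    · intro x _ y _ hxy
      rw [Function.onFun, Set.disjoint_left]
      intro ω h1 h2
      apply hxy
      simp only [Set.mem_iInter, Set.mem_preimage, Set.mem_singleton_iff,
        Finset.mem_univ, true_implies] at h1 h2
      funext i
      rw [← h1 i, ← h2 i]
    · intro x _
      exact Finset.measurableSet_biInter _ (fun i _ => hY i (measurableSet_singleton _))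

end Pool.Agent.Results.MP_652ce8_co.DiceBound
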